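import Pool.Agent.Helper51.Phi.Chain
import Pool.Prelude.Def_F_7e7e9441

set_option autoImplicit false
open Nat Filter N9cdb51e1

namespace Pool.Agent.Helper51.Phi

lemma g_pos {n : ℕ} (hn : 0 < n) : 0 < g n := by unfold g; omega

lemma g_iter_pos {n : ℕ} (hn : 0 < n) (k : ℕ) : 0 < g^[k] n := by
  induction k with
  | zero => simpa
  | succ k ih => rw [Function.iterate_succ', Function.comp]; exact g_pos ih

/-- `g (2^v c) = 2^v h(c)` for odd `c ≥ 3`. -/
lemma g_step {v c : ℕ} (hv : 1 ≤ v) (hc : Odd c) (hc3 : 3 ≤ c) : g (2 ^ v * c) = 2 ^ v * h c := by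
  have hcop : (2 ^ v).Coprime c := Nat.Coprime.pow_left v (Nat.coprime_two_left.mpr hc)
  obtain ⟨k, hk⟩ := Nat.totient_even (n := c) (by omega)
  obtain ⟨v, rfl⟩ : ∃ w, v = w + 1 := ⟨v - 1, by omega⟩
  unfold g h
  rw [Nat.totient_mul hcop, Nat.totient_prime_pow_succ Nat.prime_two, hk]
  have : (k + k) / 2 = k := by omega
  rw [this]
  ring

lemma g_pow_two {v : ℕ} (hv : 1 ≤ v) : g (2 ^ v) = 2 ^ (v - 1) * 3 := by
  obtain ⟨v, rfl⟩ : ∃ w, v = w + 1 := ⟨v - 1, by omega⟩
  unfold g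
  rw [Nat.totient_prime_pow_succ Nat.prime_two, Nat.add_sub_cancel]
  ring

lemma g_two_mul {m : ℕ} (hm : Even m) : g (2 * m) = 2 * g m := by
  unfold g
  rw [Nat.totient_two_mul_of_even hm]
  ring

lemma g_even {m : ℕ} (hm : Even m) (h2 : 2 < m) : Even (g m) := by
  unfold g
  exact hm.add (Nat.totient_even h2)

lemma g_iter_even {m : ℕ} (hm : Even m) (h2 : 2 < m) (k : ℕ) : Even (g^[k] m) ∧ 2 < g^[k] m := by
  induction k with
  | zero => exact ⟨hm, h2⟩
  | succ k ih =>
    rw [Function.iterate_succ', Function.comp]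
    refine ⟨g_even ih.1 ih.2, lt_of_lt_of_le ih.2 ?_⟩
    exact Nat.le_add_right _ _

lemma g_iter_two_mul {m : ℕ} (hm : Even m) (h2 : 2 < m) (k : ℕ) : g^[k] (2 * m) = 2 * g^[k] m := by
  induction k with
  | zero => rfl
  | succ k ih =>
    rw [Function.iterate_succ_apply', ih, Function.iterate_succ_apply']
    exact g_two_mul (g_iter_even hm h2 k).1

/-- A return `g^[r] a = 2 a` at an even `a > 2` makes `(n,r)` a solution. -/
lemma solution_of_return {n r j : ℕ} (ha : Even (g^[j] n)) (h2 : 2 < g^[j] n) (hret : g^[r] (g^[j] n) = 2 * g^[j] n) :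
    ∀ᶠ k in atTop, g^[k + r] n = 2 * g^[k] n := by
  rw [eventually_atTop]
  refine ⟨j, fun k hk => ?_⟩
  obtain ⟨i, rfl⟩ : ∃ i, k = i + j := ⟨k - j, by omega⟩
  rw [show i + j + r = i + (r + j) by ring, Function.iterate_add_apply g i (r + j), Function.iterate_add_apply g r j, hret,
    g_iter_two_mul ha h2, Function.iterate_add_apply g i j]

/-- Iterating along numbers with a fixed power of two. -/
lemma g_iter_h {v c : ℕ} (hv : 1 ≤ v) (hc3 : 3 ≤ c) (s : ℕ) (hodd : ∀ i < s, Odd (h^[i] c)) :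
    g^[s] (2 ^ v * c) = 2 ^ v * h^[s] c := by
  induction s with
  | zero => rfl
  | succ s ih =>
    rw [Function.iterate_succ_apply', ih (fun i hi => hodd i (by omega)), Function.iterate_succ_apply']
    exact g_step hv (hodd s (by omega)) (hc3.trans (h_iter_ge s c))

/-- Without parity hypotheses: an even `c` still satisfies `g (2^v c) = 2^v (c + φ(c))`, so the return needs oddness. -/
lemma odd_prime_pow_of_totient {c : ℕ} (hc : Odd c) (hc3 : 3 ≤ c) (hphi : ¬ 4 ∣ φ c) :
    ∃ p e, p.Prime ∧ 1 ≤ e ∧ c = p ^ e ∧ p % 4 = 3 := by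
  have hp := Nat.minFac_prime (show c ≠ 1 by omega)
  set p := c.minFac with hpd
  obtain ⟨e, m, hm, hcm⟩ := Nat.exists_eq_pow_mul_and_not_dvd (show c ≠ 0 by omega) p hp.ne_one
  have hpc : p ∣ c := Nat.minFac_dvd c
  have he : 1 ≤ e := by
    by_contra h0
    have : e = 0 := by omega
    subst this
    rw [pow_zero, one_mul] at hcm
    exact hm (hcm ▸ hpc)
  have hp2 : p ≠ 2 := by
    intro h2
    rw [h2] at hpc
    rw [Nat.odd_iff] at hc
    omega
  have hp3 : 2 < p := lt_of_le_of_ne hp.two_le (Ne.symm hp2)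
  have hcop : (p ^ e).Coprime m := Nat.Coprime.pow_left e ((Nat.Prime.coprime_iff_not_dvd hp).mpr hm)
  have hm1 : m = 1 := by
    by_contra hm1
    have hmo : Odd m := by
      rw [hcm] at hc
      exact (Nat.odd_mul.mp hc).2
    have hm3 : 2 < m := by
      rcases hmo with ⟨k, hk⟩
      have : k ≠ 0 := by rintro rfl; exact hm1 (by omega)
      omega
    have h1 : Even (φ m) := Nat.totient_even hm3
    have h2 : Even (φ (p ^ e)) := Nat.totient_even (lt_of_lt_of_le hp3 (Nat.le_self_pow (by omega) p))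
    apply hphi
    rw [hcm, Nat.totient_mul hcop]
    exact mul_dvd_mul h2.two_dvd h1.two_dvd
  subst hm1
  rw [mul_one] at hcm
  refine ⟨p, e, hp, he, hcm, ?_⟩
  have hpo : p % 2 = 1 := (hp.eq_two_or_odd).resolve_left hp2
  have h3 : ¬ 4 ∣ p - 1 := by
    intro h4
    apply hphi
    rw [hcm, Nat.totient_prime_pow hp he]
    exact Dvd.dvd.mul_left h4 _
  omega

/-- The step at which the power of two grows. -/
lemma jump_step {c c1 : ℕ} (hc : Odd c) (hc5 : 3 ≤ c) (h1 : h c = 2 * c1) (hc1 : Odd c1) :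
    ∃ p e q, p.Prime ∧ p % 8 = 7 ∧ 1 ≤ e ∧ c = p ^ e ∧ 4 * q + 1 = 3 * p ∧ Odd q ∧ c1 = p ^ (e - 1) * q := by
  have hev : Even (φ c) := Nat.totient_even (by omega)
  have hphi : ¬ 4 ∣ φ c := by
    intro h4
    unfold h at h1
    rw [Nat.odd_iff] at hc
    obtain ⟨k, hk⟩ := h4
    omega
  obtain ⟨p, e, hp, he, hce, hp4⟩ := odd_prime_pow_of_totient hc hc5 hphi
  obtain ⟨t, ht⟩ : ∃ t, p = 4 * t + 3 := ⟨p / 4, by omega⟩
  have h2 : 4 * c1 = p ^ (e - 1) * (3 * p - 1) := by
    obtain ⟨f, rfl⟩ : ∃ k, e = k + 1 := ⟨e - 1, by omega⟩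
    have h3 : φ c = p ^ f * (p - 1) := by rw [hce, Nat.totient_prime_pow_succ hp]
    have h4 : φ c / 2 = p ^ f * (2 * t + 1) := by
      rw [h3, ht, show 4 * t + 3 - 1 = 2 * (2 * t + 1) by omega,
        show (4 * t + 3) ^ f * (2 * (2 * t + 1)) = 2 * ((4 * t + 3) ^ f * (2 * t + 1)) by ring]
      exact Nat.mul_div_cancel_left _ (by norm_num)
    unfold h at h1
    rw [h4, hce] at h1
    rw [Nat.add_sub_cancel, show 3 * p - 1 = 2 * (p + (2 * t + 1)) by omega]
    calc 4 * c1 = 2 * (2 * c1) := by ring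
      _ = 2 * (p ^ (f + 1) + p ^ f * (2 * t + 1)) := by rw [h1]
      _ = _ := by ring
  have h5 : 3 * p - 1 = 4 * (3 * t + 2) := by omega
  rw [h5, show p ^ (e - 1) * (4 * (3 * t + 2)) = 4 * (p ^ (e - 1) * (3 * t + 2)) by ring] at h2
  have h6 : c1 = p ^ (e - 1) * (3 * t + 2) := by omega
  have h7 : Odd (3 * t + 2) := by
    rw [h6] at hc1
    exact (Nat.odd_mul.mp hc1).2
  refine ⟨p, e, 3 * t + 2, hp, ?_, he, hce, by omega, h7, h6⟩
  rw [Nat.odd_iff] at h7
  omega

lemma two_pow_uniq {a b c d : ℕ} (hc : Odd c) (hd : Odd d) (hh : 2 ^ a * c = 2 ^ b * d) : a = b ∧ c = d := by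
  have key : ∀ {a b c d : ℕ}, Odd c → Odd d → 2 ^ a * c = 2 ^ b * d → a ≤ b := by
    intro a b c d hc hd hh
    by_contra hlt
    push Not at hlt
    obtain ⟨k, rfl⟩ : ∃ k, a = b + (k + 1) := ⟨a - b - 1, by omega⟩
    rw [pow_add, mul_assoc] at hh
    have h1 := Nat.eq_of_mul_eq_mul_left (pow_pos (by norm_num) b) hh
    rw [← h1, Nat.odd_iff, pow_succ, show 2 ^ k * 2 * c = 2 * (2 ^ k * c) by ring] at hd
    omega
  have h1 := key hc hd hh
  have h2 := key hd hc hh.symm
  have h3 : a = b := by omega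
  subst h3
  exact ⟨rfl, Nat.eq_of_mul_eq_mul_left (pow_pos (by norm_num) a) hh⟩

/-- The tail of a solution. -/
theorem forward {n r : ℕ} (hn : 0 < n) (hr : 0 < r) (hsol : ∀ᶠ k in atTop, g^[k + r] n = 2 * g^[k] n) :
    (r = 2 ∧ ∃ j l, 1 ≤ l ∧ g^[j] n = 2 ^ l * 2) ∨
    ∃ j l p e q, 1 ≤ l ∧ p.Prime ∧ p % 8 = 7 ∧ 1 ≤ e ∧ 4 * q + 1 = 3 * p ∧ Odd q ∧ 2 ≤ r ∧ g^[j] n = 2 ^ l * p ^ e ∧
      h^[r - 1] (p ^ (e - 1) * q) = p ^ e ∧ ∀ i < r, Odd (h^[i] (p ^ (e - 1) * q)) := by
  obtain ⟨K, hK⟩ := eventually_atTop.mp hsol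
  have hdec : ∀ k, ∃ v c, Odd c ∧ g^[k] n = 2 ^ v * c := by
    intro k
    obtain ⟨v, c, hc, h⟩ := Nat.exists_eq_two_pow_mul_odd (g_iter_pos hn k).ne'
    exact ⟨v, c, hc, h⟩
  choose v c hc hvc using hdec
  have hper : ∀ k, K ≤ k → v (k + r) = v k + 1 ∧ c (k + r) = c k := by
    intro k hk
    have h1 := hK k hk
    rw [hvc, hvc k, ← mul_assoc, ← pow_succ'] at h1
    exact two_pow_uniq (hc _) (hc _) h1
  have hv1 : ∀ k, K + r ≤ k → 1 ≤ v k := by
    intro k hk
    have := (hper (k - r) (by omega)).1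
    rw [show k - r + r = k by omega] at this
    omega
  by_cases hA : ∃ k, K + r ≤ k ∧ c k = 1
  · left
    obtain ⟨k0, hk0, hck0⟩ := hA
    have hk1 := hper k0 (by omega)
    set k := k0 + r with hk
    have hv2 : 2 ≤ v k := by
      have := hv1 k0 hk0
      omega
    have hck : c k = 1 := by rw [hk1.2, hck0]
    have hclaim : ∀ i, g^[k + 2 * i] n = 2 ^ (v k + i) * 1 ∧ g^[k + (2 * i + 1)] n = 2 ^ (v k + i - 1) * 3 := by
      intro i
      induction i with
      | zero =>
        have h0 : g^[k] n = 2 ^ v k := by rw [hvc, hck, mul_one]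
        refine ⟨by simp [h0], ?_⟩
        rw [show k + (2 * 0 + 1) = k + 1 by ring, Function.iterate_succ_apply', h0, g_pow_two (by omega)]
        rfl
      | succ i ih =>
        have h1 : g^[k + 2 * (i + 1)] n = 2 ^ (v k + (i + 1)) := by
          rw [show k + 2 * (i + 1) = (k + (2 * i + 1)) + 1 by ring, Function.iterate_succ_apply', ih.2,
            g_step (by omega) (by decide) (by norm_num)]
          have h3 : h 3 = 4 := by decide
          rw [h3, show v k + (i + 1) = (v k + i - 1) + 2 by omega, pow_add]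
          rfl
        refine ⟨by rw [h1, mul_one], ?_⟩
        rw [show k + (2 * (i + 1) + 1) = (k + 2 * (i + 1)) + 1 by ring, Function.iterate_succ_apply', h1, g_pow_two (by omega)]
    have hret : g^[k + r] n = 2 ^ (v k + 1) * 1 := by
      rw [hK k (by omega), hvc k, hck]
      ring
    rcases Nat.even_or_odd' r with ⟨i, hi | hi⟩
    · have h1 := (hclaim i).1
      rw [← hi, hret] at h1
      have h2 := (two_pow_uniq (by decide) (by decide) h1).1
      refine ⟨by omega, k, v k - 1, by omega, ?_⟩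
      rw [hvc k, hck, mul_one, ← pow_succ]
      congr 1
      omega
    · have h1 := (hclaim i).2
      rw [← hi, hret] at h1
      have h2 := (two_pow_uniq (by decide) (by decide) h1).2
      omega
  · right
    push Not at hA
    have hc5 : ∀ k, K + r ≤ k → 3 ≤ c k := by
      intro k hk
      have h1 := hA k hk
      obtain ⟨t, ht⟩ := hc k
      omega
    have hstep : ∀ k, K + r ≤ k → 2 ^ v (k + 1) * c (k + 1) = 2 ^ v k * h (c k) := by
      intro k hk
      rw [← hvc (k + 1), Function.iterate_succ_apply', hvc k]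
      exact g_step (hv1 k hk) (hc k) (hc5 k hk)
    have hmono : ∀ k, K + r ≤ k → v k ≤ v (k + 1) := by
      intro k hk
      have hpos : h (c k) ≠ 0 := by
        have := h_ge (c k)
        have := hc5 k hk
        omega
      obtain ⟨w, d, hd, hwd⟩ := Nat.exists_eq_two_pow_mul_odd hpos
      have h1 := hstep k hk
      rw [hwd, ← mul_assoc, ← pow_add] at h1
      have := (two_pow_uniq (hc _) hd h1).1
      omega
    have hmono' : ∀ k i, K + r ≤ k → v k ≤ v (k + i) := by
      intro k i hk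
      induction i with
      | zero => simp
      | succ i ih => exact ih.trans (hmono (k + i) (by omega))
    obtain ⟨k, hk1, hjump⟩ : ∃ k, K + r ≤ k ∧ v k < v (k + 1) := by
      by_contra hno
      push Not at hno
      have h1 : ∀ i, v (K + r + i) ≤ v (K + r) := by
        intro i
        induction i with
        | zero => simp
        | succ i ih => exact (hno (K + r + i) (by omega)).trans ih
      have h2 := h1 r
      have h3 := (hper (K + r) (by omega)).1
      omega
    have hvr := (hper k (by omega)).1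
    have hcr := (hper k (by omega)).2
    have hconst : ∀ i, i < r → v (k + 1 + i) = v k + 1 := by
      intro i hi
      have h1 := hmono' (k + 1) i (by omega)
      have h2 := hmono' (k + 1 + i) (r - 1 - i) (by omega)
      rw [show k + 1 + i + (r - 1 - i) = k + r by omega] at h2
      omega
    have hh1 : h (c k) = 2 * c (k + 1) := by
      have h1 := hstep k hk1
      have h2 := hconst 0 hr
      rw [add_zero] at h2
      rw [h2, pow_succ, mul_assoc] at h1
      exact (Nat.eq_of_mul_eq_mul_left (pow_pos (by norm_num) _) h1).symm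
    obtain ⟨p, e, q, hp, hp8, he, hcp, hq, hqo, hc1⟩ := jump_step (hc k) (hc5 k hk1) hh1 (hc (k + 1))
    have hchain : ∀ i, i < r → c (k + 1 + i) = h^[i] (c (k + 1)) := by
      intro i
      induction i with
      | zero => intro _; rfl
      | succ i ih =>
        intro hi
        have h1 := hstep (k + 1 + i) (by omega)
        have h2 := hconst i (by omega)
        have h3 := hconst (i + 1) hi
        rw [show k + 1 + i + 1 = k + 1 + (i + 1) by ring, h3, h2] at h1
        rw [Nat.eq_of_mul_eq_mul_left (pow_pos (by norm_num) _) h1, ih (by omega), Function.iterate_succ_apply']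
    have hend : h^[r - 1] (c (k + 1)) = p ^ e := by
      rw [← hchain (r - 1) (by omega), show k + 1 + (r - 1) = k + r by omega, hcr, hcp]
    have hr2 : 2 ≤ r := by
      by_contra hlt
      have hr1 : r = 1 := by omega
      subst hr1
      simp only [Nat.sub_self, Function.iterate_zero, id_eq] at hend
      rw [hc1] at hend
      have h1 : p ^ e = p ^ (e - 1) * p := by
        rw [← pow_succ]
        congr 1
        omega
      rw [h1] at hend
      have := Nat.eq_of_mul_eq_mul_left (pow_pos hp.pos _) hend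
      omega
    refine ⟨k, v k, p, e, q, hv1 k hk1, hp, hp8, he, hq, hqo, hr2, ?_, ?_, ?_⟩
    · rw [hvc k, hcp]
    · rw [← hc1]; exact hend
    · intro i hi
      rw [← hc1, ← hchain i hi]
      exact hc _

/-- A chain gives a solution. -/
theorem backward {n r j l p e q : ℕ} (hl : 1 ≤ l) (hp : p.Prime) (hp7 : 7 ≤ p) (he : 1 ≤ e) (hq : 4 * q + 1 = 3 * p)
    (hr : 2 ≤ r) (hj : g^[j] n = 2 ^ l * p ^ e) (hend : h^[r - 1] (p ^ (e - 1) * q) = p ^ e)
    (hodd : ∀ i < r - 1, Odd (h^[i] (p ^ (e - 1) * q))) :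
    ∀ᶠ k in atTop, g^[k + r] n = 2 * g^[k] n := by
  have hp2 : p ≠ 2 := by omega
  have hpo : Odd p := (hp.eq_two_or_odd').resolve_left hp2
  have hpe : p ≤ p ^ e := Nat.le_self_pow (by omega) p
  have hpe1 : 1 ≤ p ^ (e - 1) := Nat.one_le_pow _ _ hp.pos
  have hq5 : 5 ≤ q := by omega
  have h2l : 2 ≤ 2 ^ l := by
    calc 2 = 2 ^ 1 := by norm_num
      _ ≤ 2 ^ l := Nat.pow_le_pow_right (by norm_num) hl
  refine solution_of_return (j := j) ?_ ?_ ?_
  · rw [hj]
    obtain ⟨l, rfl⟩ : ∃ w, l = w + 1 := ⟨l - 1, by omega⟩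
    exact ⟨2 ^ l * p ^ e, by ring⟩
  · rw [hj]
    nlinarith
  · have h1 : g (2 ^ l * p ^ e) = 2 ^ (l + 1) * (p ^ (e - 1) * q) := by
      rw [g_step hl (Odd.pow hpo) (by omega)]
      obtain ⟨f, rfl⟩ : ∃ k, e = k + 1 := ⟨e - 1, by omega⟩
      obtain ⟨t, ht⟩ : ∃ t, p = 4 * t + 3 := ⟨p / 4, by omega⟩
      have h3 : φ (p ^ (f + 1)) = p ^ f * (p - 1) := Nat.totient_prime_pow_succ hp f
      have h4 : φ (p ^ (f + 1)) / 2 = p ^ f * (2 * t + 1) := by
        rw [h3, show p - 1 = 2 * (2 * t + 1) by omega,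
          show p ^ f * (2 * (2 * t + 1)) = 2 * (p ^ f * (2 * t + 1)) by ring]
        exact Nat.mul_div_cancel_left _ (by norm_num)
      unfold h
      rw [h4, Nat.add_sub_cancel]
      have h5 : p + (2 * t + 1) = 2 * q := by omega
      calc 2 ^ l * (p ^ (f + 1) + p ^ f * (2 * t + 1)) = 2 ^ l * (p ^ f * (p + (2 * t + 1))) := by ring
        _ = _ := by rw [h5]; ring
    obtain ⟨s, rfl⟩ : ∃ s, r = s + 2 := ⟨r - 2, by omega⟩
    rw [show s + 2 - 1 = s + 1 by omega] at hend hodd
    rw [hj, show s + 2 = (s + 1) + 1 by ring, Function.iterate_succ_apply, h1,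
      g_iter_h (by omega) (by nlinarith) (s + 1) hodd, hend]
    ring

end Pool.Agent.Helper51.Phi
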