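import Pool.Agent.Helper51.Phi.Leaves

set_option autoImplicit false
open Nat

namespace Pool.Agent.Helper51.Phi

/-- One step of the odd parts: `c ↦ c + φ(c)/2`. -/
def h (c : ℕ) : ℕ := c + φ c / 2

lemma h_ge (c : ℕ) : c ≤ h c := Nat.le_add_right _ _

lemma h_iter_ge (s c : ℕ) : c ≤ h^[s] c := by
  induction s with
  | zero => simp
  | succ s ih =>
    rw [Function.iterate_succ', Function.comp]
    exact ih.trans (h_ge _)

/-- The ratio `φ(c)/c`. -/
noncomputable def x (c : ℕ) : ℚ := (φ c : ℚ) / c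

lemma x_eq_prod {c : ℕ} (hc : c ≠ 0) : x c = ∏ p ∈ c.primeFactors, (1 - (p : ℚ)⁻¹) := by
  unfold x
  rw [Nat.totient_eq_mul_prod_factors c]
  have : (c : ℚ) ≠ 0 := by exact_mod_cast hc
  field_simp

lemma x_nonneg (c : ℕ) : 0 ≤ x c := by unfold x; positivity

lemma h_cast {c : ℕ} (hc : 3 ≤ c) : (h c : ℚ) = c * (1 + x c / 2) := by
  have h2 : Even (φ c) := Nat.totient_even (by omega)
  obtain ⟨k, hk⟩ := h2
  have h3 : φ c / 2 = k := by omega
  have hc0 : (c : ℚ) ≠ 0 := by exact_mod_cast (by omega : c ≠ 0)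
  unfold h x
  rw [h3, hk]
  push_cast
  field_simp
  ring

/-- Splitting off the powers of one prime. -/
lemma x_split {p f m : ℕ} (hp : p.Prime) (hm : m ≠ 0) (hpm : p.Coprime m) :
    (1 - (p : ℚ)⁻¹) * x m ≤ x (p ^ f * m) := by
  have hp1 : (1 : ℚ) < p := by exact_mod_cast hp.one_lt
  have hp2 : 0 < (p : ℚ)⁻¹ := by positivity
  have hm0 : (m : ℚ) ≠ 0 := by exact_mod_cast hm
  rcases Nat.eq_zero_or_pos f with hf | hf
  · subst hf
    simp only [pow_zero, one_mul]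
    have := x_nonneg m
    nlinarith
  · apply le_of_eq
    unfold x
    rw [Nat.totient_mul (Nat.Coprime.pow_left f hpm), Nat.totient_prime_pow hp hf]
    rw [Nat.cast_mul, Nat.cast_mul, Nat.cast_mul, Nat.cast_sub hp.one_lt.le, Nat.cast_pow, Nat.cast_pow]
    obtain ⟨f, rfl⟩ : ∃ k, f = k + 1 := ⟨f - 1, by omega⟩
    rw [Nat.add_sub_cancel, pow_succ]
    have : (p : ℚ) ≠ 0 := by positivity
    field_simp
    ring

lemma odd_primeFactors {m : ℕ} (hm : Odd m) : ∀ y ∈ m.primeFactors, y.Prime ∧ y ≠ 2 := by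
  intro y hy
  refine ⟨Nat.prime_of_mem_primeFactors hy, ?_⟩
  rintro rfl
  have := Nat.dvd_of_mem_primeFactors hy
  rw [Nat.odd_iff] at hm
  omega

lemma prod_pf_le {m : ℕ} (hm : m ≠ 0) : ∏ y ∈ m.primeFactors, y ≤ m :=
  Nat.le_of_dvd (Nat.pos_of_ne_zero hm) (Nat.prod_primeFactors_dvd m)

/-- `φ(m)/m ≥ 0.3696` for odd `m < 10^300` prime to `φ(m)`. -/
lemma x_cyc {m : ℕ} (hm : Odd m) (hcop : m.Coprime (φ m)) (hlt : m < 10 ^ 300) : (3696 : ℚ) / 10000 ≤ x m := by
  have hm0 : m ≠ 0 := by rintro rfl; simp at hm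
  rw [x_eq_prod hm0]
  refine cyc_set (odd_primeFactors hm) ?_ (lt_of_le_of_lt (prod_pf_le hm0) hlt)
  intro a ha b hb hab
  have hap := Nat.prime_of_mem_primeFactors ha
  have hbp := Nat.prime_of_mem_primeFactors hb
  have h1 : a ∣ b - 1 := by
    have h2 := Nat.div_add_mod b a
    rw [hab] at h2
    exact ⟨b / a, by omega⟩
  have h2 : b - 1 ∣ φ m := by
    have h3 : φ b ∣ φ m := Nat.totient_dvd_of_dvd (Nat.dvd_of_mem_primeFactors hb)
    rwa [Nat.totient_prime hbp] at h3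
  have h3 : a ∣ 1 := by
    rw [← hcop]
    exact Nat.dvd_gcd (Nat.dvd_of_mem_primeFactors ha) (h1.trans h2)
  exact hap.one_lt.ne' (Nat.dvd_one.mp h3)

lemma six_primeFactors {q : ℕ} (hq : Odd q) (h3 : ¬ 3 ∣ q) : ∀ y ∈ q.primeFactors, y.Prime ∧ y ≠ 2 ∧ y ≠ 3 := by
  intro y hy
  refine ⟨Nat.prime_of_mem_primeFactors hy, (odd_primeFactors hq y hy).2, ?_⟩
  rintro rfl
  exact h3 (Nat.dvd_of_mem_primeFactors hy)

lemma x_six {q : ℕ} (hq : Odd q) (h3 : ¬ 3 ∣ q) (hlt : q < 10 ^ 300) : (2541 : ℚ) / 10000 ≤ x q := by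
  have hq0 : q ≠ 0 := by rintro rfl; simp at hq
  rw [x_eq_prod hq0]
  exact six_set (six_primeFactors hq h3) (lt_of_le_of_lt (prod_pf_le hq0) hlt)

lemma x_six_small {q : ℕ} (hq : Odd q) (h3 : ¬ 3 ∣ q) (hlt : q < 5005) : (5754 : ℚ) / 10000 ≤ x q := by
  have hq0 : q ≠ 0 := by rintro rfl; simp at hq
  rw [x_eq_prod hq0]
  exact six_small (six_primeFactors hq h3) (lt_of_le_of_lt (prod_pf_le hq0) hlt)

/-- The number before the prime power. -/
lemma x_last {p e b : ℕ} (hp : p.Prime) (hb : Odd b) (hb3 : 3 ≤ b) (hbe : h b = p ^ e) (hlt : b < 10 ^ 300) :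
    (1 - (p : ℚ)⁻¹) * (3696 / 10000) ≤ x b := by
  obtain ⟨f, m, hm, hbm⟩ := Nat.exists_eq_pow_mul_and_not_dvd (show b ≠ 0 by omega) p hp.ne_one
  have hb0 : b ≠ 0 := by omega
  have hm0 : m ≠ 0 := by rintro rfl; simp at hbm; omega
  have hpm : p.Coprime m := (Nat.Prime.coprime_iff_not_dvd hp).mpr hm
  have hmo : Odd m := by
    rw [hbm] at hb
    exact (Nat.odd_mul.mp hb).2
  have hmb : m ∣ b := ⟨p ^ f, by rw [hbm, mul_comm]⟩
  have hcop : m.Coprime (φ m) := by
    rw [Nat.coprime_iff_gcd_eq_one]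
    by_contra hne
    obtain ⟨l, hl, hld⟩ := Nat.exists_prime_and_dvd hne
    have h1 : l ∣ m := hld.trans (Nat.gcd_dvd_left _ _)
    have h2 : l ∣ φ m := hld.trans (Nat.gcd_dvd_right _ _)
    have h3 : l ∣ φ b := h2.trans (Nat.totient_dvd_of_dvd hmb)
    have hl2 : l ≠ 2 := by
      rintro rfl
      rw [Nat.odd_iff] at hmo
      omega
    have hev : 2 ∣ φ b := (Nat.totient_even (by omega)).two_dvd
    have h4 : l ∣ φ b / 2 := by
      have h5 : l ∣ 2 * (φ b / 2) := by rwa [Nat.mul_div_cancel' hev]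
      exact (Nat.Coprime.dvd_of_dvd_mul_left ((Nat.coprime_primes hl Nat.prime_two).mpr hl2) h5)
    have h5 : l ∣ p ^ e := by
      rw [← hbe]
      exact dvd_add (h1.trans hmb) h4
    have h6 : l = p := (Nat.prime_dvd_prime_iff_eq hl hp).mp (hl.dvd_of_dvd_pow h5)
    exact hm (h6 ▸ h1)
  have hxm := x_cyc hmo hcop (lt_of_le_of_lt (Nat.le_of_dvd (by omega) hmb) hlt)
  have hsp := x_split (f := f) hp hm0 hpm
  rw [← hbm] at hsp
  have hp1 : 0 ≤ 1 - (p : ℚ)⁻¹ := by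
    have : (p : ℚ)⁻¹ ≤ 1 := inv_le_one_of_one_le₀ (by exact_mod_cast hp.one_lt.le)
    linarith
  exact (mul_le_mul_of_nonneg_left hxm hp1).trans hsp

/-- Chains of length at least two end above `10^300`. -/
theorem chain_bound {p e q s : ℕ} (hp : p.Prime) (hp7 : 7 ≤ p) (he : 1 ≤ e) (hq : 4 * q + 1 = 3 * p) (hqo : Odd q) (hs : 2 ≤ s)
    (hend : h^[s] (p ^ (e - 1) * q) = p ^ e) (hodd : Odd (h^[s - 1] (p ^ (e - 1) * q))) : 10 ^ 300 < p ^ e := by
  by_contra hcon
  push Not at hcon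
  set d := p ^ (e - 1) * q with hd
  obtain ⟨s, rfl⟩ : ∃ k, s = k + 2 := ⟨s - 2, by omega⟩
  simp only [Nat.add_succ_sub_one] at hodd
  set b := h^[s + 1] d with hb
  have hhb : h b = p ^ e := by
    rw [hb, ← hend]
    rw [Function.iterate_succ' h (s + 1)]
    rfl
  have hq3 : ¬ 3 ∣ q := by omega
  have hpq : p.Coprime q := by
    rw [Nat.Prime.coprime_iff_not_dvd hp]
    intro hdvd
    have := Nat.le_of_dvd (by omega) hdvd
    omega
  have hpe1 : 1 ≤ p ^ (e - 1) := Nat.one_le_pow _ _ hp.pos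
  have hqd : q ≤ d := by rw [hd]; exact Nat.le_mul_of_pos_left _ hpe1
  have hq5 : 5 ≤ q := by omega
  have hhd : h d ≤ b := by
    rw [hb, Function.iterate_succ, Function.comp]
    exact h_iter_ge s (h d)
  have hdb : d ≤ b := (h_ge d).trans hhd
  have hb3 : 3 ≤ b := by omega
  have hbpos : 0 < φ b / 2 := by
    have h1 : Even (φ b) := Nat.totient_even (by omega)
    have h2 : 0 < φ b := Nat.totient_pos.mpr (by omega)
    obtain ⟨k, hk⟩ := h1
    omega
  have hblt : b < p ^ e := by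
    rw [← hhb]
    unfold h
    omega
  have hxb := x_last hp hodd hb3 hhb (lt_of_lt_of_le hblt hcon)
  have hxd := x_split (f := e - 1) hp (show q ≠ 0 by omega) hpq
  rw [← hd] at hxd
  have hppe : p ≤ p ^ e := Nat.le_self_pow (by omega) p
  have hqlt : q < 10 ^ 300 := by omega
  -- the product inequality
  have hd0 : (0 : ℚ) < d := by exact_mod_cast (by omega : 0 < d)
  have hp0 : (0 : ℚ) < p := by exact_mod_cast hp.pos
  have hdq : 4 * (p : ℚ) * d = (3 * p - 1) * (p : ℚ) ^ e := by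
    have h1 : 4 * p * d + p ^ e = 3 * p * p ^ e := by
      have h2 : p ^ e = p ^ (e - 1) * p := by
        rw [← pow_succ]
        congr 1
        omega
      rw [hd, h2]
      calc 4 * p * (p ^ (e - 1) * q) + p ^ (e - 1) * p = (p ^ (e - 1) * p) * (4 * q + 1) := by ring
        _ = _ := by rw [hq]; ring
    have h3 : (4 * (p : ℚ) * d + (p : ℚ) ^ e) = 3 * p * (p : ℚ) ^ e := by exact_mod_cast h1
    linarith
  have hprod : (d : ℚ) * (1 + x d / 2) * (1 + x b / 2) ≤ (p : ℚ) ^ e := by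
    have h1 : (h d : ℚ) = d * (1 + x d / 2) := h_cast (by omega)
    have h2 : (h b : ℚ) = b * (1 + x b / 2) := h_cast hb3
    have h3 : (h d : ℚ) ≤ b := by exact_mod_cast hhd
    rw [← h1]
    calc (h d : ℚ) * (1 + x b / 2) ≤ b * (1 + x b / 2) := by
          apply mul_le_mul_of_nonneg_right h3
          have := x_nonneg b
          linarith
      _ = _ := by rw [← h2, hhb]; push_cast; rfl
  have hkey : (3 * (p : ℚ) - 1) * ((1 + x d / 2) * (1 + x b / 2)) ≤ 4 * p := by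
    have hpe0 : (0 : ℚ) < (p : ℚ) ^ e := by positivity
    have h1 : (3 * (p : ℚ) - 1) * (p : ℚ) ^ e * ((1 + x d / 2) * (1 + x b / 2)) ≤ 4 * p * (p : ℚ) ^ e := by
      rw [← hdq]
      nlinarith
    have h2 : (p : ℚ) ^ e * ((3 * (p : ℚ) - 1) * ((1 + x d / 2) * (1 + x b / 2))) ≤ (p : ℚ) ^ e * (4 * p) := by linarith
    exact le_of_mul_le_mul_left h2 hpe0
  -- numerical end
  set w : ℚ := (p : ℚ)⁻¹ with hw
  have hwp : w * p = 1 := inv_mul_cancel₀ hp0.ne'
  have hw0 : 0 < w := by positivity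
  have hp7' : (7 : ℚ) ≤ p := by exact_mod_cast hp7
  have hw7 : w ≤ 1 / 7 := by
    rw [hw, inv_le_comm₀ hp0 (by norm_num)]
    norm_num
    exact hp7
  have hkey' : (3 - w) * ((1 + x d / 2) * (1 + x b / 2)) ≤ 4 := by
    have h1 : w * ((3 * (p : ℚ) - 1) * ((1 + x d / 2) * (1 + x b / 2))) ≤ w * (4 * p) := mul_le_mul_of_nonneg_left hkey hw0.le
    have h2 : w * (4 * p) = 4 := by linarith [hwp]
    have h3 : w * ((3 * (p : ℚ) - 1) * ((1 + x d / 2) * (1 + x b / 2))) = (3 * (w * p) - w) * ((1 + x d / 2) * (1 + x b / 2)) := by ring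
    rw [h2, h3, hwp] at h1
    linarith
  have hB : 1 + (1 - w) * (3696 / 10000) / 2 ≤ 1 + x b / 2 := by linarith
  by_cases hsm : q < 5005
  · have hxq := x_six_small hqo hq3 hsm
    have hA : 1 + (1 - w) * (5754 / 10000) / 2 ≤ 1 + x d / 2 := by
      have : (1 - w) * (5754 / 10000) ≤ (1 - w) * x q := mul_le_mul_of_nonneg_left hxq (by linarith)
      linarith
    have h1 : (1 + (1 - w) * (5754 / 10000) / 2) * (1 + (1 - w) * (3696 / 10000) / 2) ≤ (1 + x d / 2) * (1 + x b / 2) :=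
      mul_le_mul hA hB (by nlinarith) (by linarith [x_nonneg d])
    have h2 : (3 - w) * ((1 + (1 - w) * (5754 / 10000) / 2) * (1 + (1 - w) * (3696 / 10000) / 2)) ≤ 4 :=
      (mul_le_mul_of_nonneg_left h1 (by linarith)).trans hkey'
    have h3 : (6 : ℚ) / 7 ≤ 1 - w := by linarith
    have h4 : (1 + (6 / 7 : ℚ) * (5754 / 10000) / 2) * (1 + (6 / 7) * (3696 / 10000) / 2) ≤
        (1 + (1 - w) * (5754 / 10000) / 2) * (1 + (1 - w) * (3696 / 10000) / 2) :=
      mul_le_mul (by linarith) (by linarith) (by norm_num) (by linarith)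
    nlinarith
  · have hxq := x_six hqo hq3 hqlt
    have hw5 : w ≤ 1 / 6673 := by
      rw [hw, inv_le_comm₀ hp0 (by norm_num)]
      norm_num
      exact_mod_cast (by omega : 6673 ≤ p)
    have hA : 1 + (1 - w) * (2541 / 10000) / 2 ≤ 1 + x d / 2 := by
      have : (1 - w) * (2541 / 10000) ≤ (1 - w) * x q := mul_le_mul_of_nonneg_left hxq (by linarith)
      linarith
    have h1 : (1 + (1 - w) * (2541 / 10000) / 2) * (1 + (1 - w) * (3696 / 10000) / 2) ≤ (1 + x d / 2) * (1 + x b / 2) :=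
      mul_le_mul hA hB (by nlinarith) (by linarith [x_nonneg d])
    have h2 : (3 - w) * ((1 + (1 - w) * (2541 / 10000) / 2) * (1 + (1 - w) * (3696 / 10000) / 2)) ≤ 4 :=
      (mul_le_mul_of_nonneg_left h1 (by linarith)).trans hkey'
    have h3 : (6672 : ℚ) / 6673 ≤ 1 - w := by linarith
    have h4 : (1 + (6672 / 6673 : ℚ) * (2541 / 10000) / 2) * (1 + (6672 / 6673) * (3696 / 10000) / 2) ≤
        (1 + (1 - w) * (2541 / 10000) / 2) * (1 + (1 - w) * (3696 / 10000) / 2) :=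
      mul_le_mul (by linarith) (by linarith) (by norm_num) (by linarith)
    nlinarith

/-- The chains of length one: `e = 1` and `3 φ(q) = 2 (q + 1)`. -/
theorem chain_two {p e q : ℕ} (hp : p.Prime) (hp7 : 7 ≤ p) (he : 1 ≤ e) (hq : 4 * q + 1 = 3 * p)
    (hend : h (p ^ (e - 1) * q) = p ^ e) : e = 1 ∧ 3 * φ q = 2 * (q + 1) := by
  have hpq : p.Coprime q := by
    rw [Nat.Prime.coprime_iff_not_dvd hp]
    intro hdvd
    have := Nat.le_of_dvd (by omega) hdvd
    omega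
  have hq5 : 5 ≤ q := by omega
  have hqe : Even (φ q) := Nat.totient_even (by omega)
  rcases Nat.eq_or_lt_of_le he with he1 | he1
  · subst he1
    simp only [Nat.sub_self, pow_zero, one_mul, pow_one] at hend
    unfold h at hend
    obtain ⟨k, hk⟩ := hqe
    refine ⟨rfl, ?_⟩
    omega
  · exfalso
    obtain ⟨f, rfl⟩ : ∃ k, e = k + 2 := ⟨e - 2, by omega⟩
    have h1 : φ (p ^ (f + 2 - 1) * q) = p ^ f * ((p - 1) * φ q) := by
      rw [Nat.totient_mul (Nat.Coprime.pow_left _ hpq), show f + 2 - 1 = f + 1 by omega, Nat.totient_prime_pow_succ hp]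
      ring
    obtain ⟨k, hk⟩ := hqe
    have h2 : φ (p ^ (f + 2 - 1) * q) / 2 = p ^ f * ((p - 1) * k) := by
      rw [h1, hk, show p ^ f * ((p - 1) * (k + k)) = 2 * (p ^ f * ((p - 1) * k)) by ring]
      exact Nat.mul_div_cancel_left _ (by norm_num)
    unfold h at hend
    rw [h2, show f + 2 - 1 = f + 1 by omega] at hend
    have h3 : p ^ f * (p * q + (p - 1) * k) = p ^ f * (p * p) := by
      calc p ^ f * (p * q + (p - 1) * k) = p ^ (f + 1) * q + p ^ f * ((p - 1) * k) := by ring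
        _ = _ := by rw [hend]; ring
    have h4 := Nat.eq_of_mul_eq_mul_left (pow_pos hp.pos f) h3
    have h5 : p ∣ (p - 1) * k := by
      have : p ∣ p * q + (p - 1) * k := ⟨p, h4⟩
      exact (Nat.dvd_add_right (Dvd.intro _ rfl)).mp this
    have h6 : p.Coprime (p - 1) := by
      rw [Nat.Prime.coprime_iff_not_dvd hp]
      intro hd
      have := Nat.le_of_dvd (by omega) hd
      omega
    have h7 : p ∣ k := h6.dvd_of_dvd_mul_left h5
    have h8 : φ q ≤ q := Nat.totient_le q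
    have h9 : 0 < φ q := Nat.totient_pos.mpr (by omega)
    have := Nat.le_of_dvd (by omega) h7
    omega

end Pool.Agent.Helper51.Phi
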