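import Mathlib

set_option autoImplicit false
open Nat

namespace Pool.Agent.Helper51.Phi

/-- Among finite sets of numbers whose product is below `B`, the product of `1 - 1/x` is at least its value for an initial
segment `T` of the admissible numbers with product at least `B`. -/
lemma greedy {S T : Finset ℕ} {y B : ℕ} (hy : 2 ≤ y) (hS : ∀ x ∈ S, 2 ≤ x) (hT : ∀ x ∈ T, 2 ≤ x ∧ x ≤ y)
    (hcov : ∀ x ∈ S, x ≤ y → x ∈ T) (hSB : ∏ x ∈ S, x < B) (hTB : B ≤ ∏ x ∈ T, x) :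
    ∏ x ∈ T, (1 - (x : ℚ)⁻¹) ≤ ∏ x ∈ S, (1 - (x : ℚ)⁻¹) := by
  classical
  have hf : ∀ x : ℕ, 2 ≤ x → 0 < (1 - (x : ℚ)⁻¹) := by
    intro x hx
    have : (2 : ℚ) ≤ x := by exact_mod_cast hx
    have h2 : (x : ℚ)⁻¹ ≤ 2⁻¹ := inv_anti₀ (by norm_num) this
    linarith
  have e1 : (∏ x ∈ S ∩ T, (1 - (x : ℚ)⁻¹)) * ∏ x ∈ T \ S, (1 - (x : ℚ)⁻¹) = ∏ x ∈ T, (1 - (x : ℚ)⁻¹) := by
    rw [Finset.inter_comm]
    exact Finset.prod_inter_mul_prod_sdiff T S _
  have e2 : (∏ x ∈ S ∩ T, (1 - (x : ℚ)⁻¹)) * ∏ x ∈ S \ T, (1 - (x : ℚ)⁻¹) = ∏ x ∈ S, (1 - (x : ℚ)⁻¹) :=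
    Finset.prod_inter_mul_prod_sdiff S T _
  have n1 : (∏ x ∈ S ∩ T, x) * ∏ x ∈ T \ S, x = ∏ x ∈ T, x := by
    rw [Finset.inter_comm]
    exact Finset.prod_inter_mul_prod_sdiff T S _
  have n2 : (∏ x ∈ S ∩ T, x) * ∏ x ∈ S \ T, x = ∏ x ∈ S, x := Finset.prod_inter_mul_prod_sdiff S T _
  have hlt : ∏ x ∈ S \ T, x < ∏ x ∈ T \ S, x := by
    have : (∏ x ∈ S ∩ T, x) * ∏ x ∈ S \ T, x < (∏ x ∈ S ∩ T, x) * ∏ x ∈ T \ S, x := by
      rw [n1, n2]; omega
    exact Nat.lt_of_mul_lt_mul_left this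
  have hS2 : ∀ x ∈ S \ T, y < x := by
    intro x hx
    rw [Finset.mem_sdiff] at hx
    by_contra h
    exact hx.2 (hcov x hx.1 (by omega))
  have hc : (S \ T).card < (T \ S).card := by
    have h1 : y ^ (S \ T).card ≤ ∏ x ∈ S \ T, x := by
      rw [← Finset.prod_const]
      exact Finset.prod_le_prod' fun x hx => (hS2 x hx).le
    have h2 : ∏ x ∈ T \ S, x ≤ y ^ (T \ S).card := by
      rw [← Finset.prod_const]
      exact Finset.prod_le_prod' fun x hx => (hT x (Finset.mem_sdiff.mp hx).1).2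
    exact (Nat.pow_lt_pow_iff_right (by omega)).mp (lt_of_le_of_lt h1 (lt_of_lt_of_le hlt h2))
  have hmain : ∏ x ∈ T \ S, (1 - (x : ℚ)⁻¹) ≤ ∏ x ∈ S \ T, (1 - (x : ℚ)⁻¹) := by
    have hy' : (0 : ℚ) < y := by exact_mod_cast (by omega : 0 < y)
    have h1 : ∏ x ∈ T \ S, (1 - (x : ℚ)⁻¹) ≤ (1 - (y : ℚ)⁻¹) ^ (T \ S).card := by
      rw [← Finset.prod_const]
      refine Finset.prod_le_prod (fun x hx => (hf x (hT x (Finset.mem_sdiff.mp hx).1).1).le) fun x hx => ?_
      have h3 := hT x (Finset.mem_sdiff.mp hx).1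
      have h4 : (y : ℚ)⁻¹ ≤ (x : ℚ)⁻¹ := inv_anti₀ (by exact_mod_cast (by omega : 0 < x)) (by exact_mod_cast h3.2)
      linarith
    have h2 : (1 - (y : ℚ)⁻¹) ^ (S \ T).card ≤ ∏ x ∈ S \ T, (1 - (x : ℚ)⁻¹) := by
      rw [← Finset.prod_const]
      refine Finset.prod_le_prod (fun x _ => (hf y hy).le) fun x hx => ?_
      have h3 := hS2 x hx
      have h4 : (x : ℚ)⁻¹ ≤ (y : ℚ)⁻¹ := inv_anti₀ hy' (by exact_mod_cast h3.le)
      linarith
    refine h1.trans (le_trans ?_ h2)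
    refine pow_le_pow_of_le_one (hf y hy).le ?_ hc.le
    have : 0 < (y : ℚ)⁻¹ := by positivity
    linarith
  rw [← e1, ← e2]
  refine mul_le_mul_of_nonneg_left hmain (Finset.prod_nonneg fun x hx => ?_)
  exact (hf x (hS x (Finset.mem_inter.mp hx).1)).le

/-- Trial division by the primes below `47`. -/
def isP (p : ℕ) : Bool := [2, 3, 5, 7, 11, 13, 17, 19, 23, 29, 31, 37, 41, 43].all (fun d => d == p || p % d != 0)

/-- Admissible with respect to the members `I` and the non-members `E`. -/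
def adm (I E : List ℕ) (p : ℕ) : Bool := !(E.contains p) && I.all (fun i => p % i != 1 && i % p != 1)

def lst (I E : List ℕ) (y : ℕ) : List ℕ := (List.range (y + 1)).filter (fun p => decide (3 ≤ p) && isP p && adm I E p)

lemma isP_of_prime {p : ℕ} (hp : p.Prime) : isP p = true := by
  unfold isP
  rw [List.all_eq_true]
  intro d hd
  simp only [Bool.or_eq_true, beq_iff_eq, bne_iff_ne]
  by_cases h : d = p
  · exact Or.inl h
  · right
    intro h0
    have hdvd : d ∣ p := Nat.dvd_of_mod_eq_zero h0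
    rcases (Nat.dvd_prime hp).mp hdvd with h1 | h1
    · subst h1
      simp at hd
    · exact h h1

/-- The bound obtained from one leaf. -/
lemma leaf {S : Finset ℕ} {B : ℕ} (I E : List ℕ) (y : ℕ) (num den : ℕ) (hden : 0 < den) (hy : 3 ≤ y)
    (hS : ∀ x ∈ S, x.Prime ∧ x ≠ 2) (hcyc : ∀ x ∈ S, ∀ z ∈ S, z % x ≠ 1) (hI : ∀ i ∈ I, i ∈ S) (hE : ∀ i ∈ E, i ∉ S)
    (hSB : ∏ x ∈ S, x < B) (hTB : B ≤ (lst I E y).prod)
    (hval : num * (lst I E y).prod ≤ den * ((lst I E y).map (fun x => x - 1)).prod) :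
    (num : ℚ) / den ≤ ∏ x ∈ S, (1 - (x : ℚ)⁻¹) := by
  classical
  have hnd : (lst I E y).Nodup := List.Nodup.filter _ List.nodup_range
  have hmem : ∀ x, x ∈ (lst I E y).toFinset ↔ x ≤ y ∧ 3 ≤ x ∧ isP x = true ∧ adm I E x = true := by
    intro x
    rw [List.mem_toFinset, lst, List.mem_filter, List.mem_range]
    simp only [Bool.and_eq_true, decide_eq_true_eq]
    constructor
    · rintro ⟨h1, ⟨h2, h3⟩, h4⟩
      exact ⟨by omega, h2, h3, h4⟩
    · rintro ⟨h1, h2, h3, h4⟩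
      exact ⟨by omega, ⟨h2, h3⟩, h4⟩
  have hprod : ∏ x ∈ (lst I E y).toFinset, x = (lst I E y).prod := by
    rw [List.prod_toFinset (fun x => x) hnd]
    simp
  have hg := greedy (S := S) (T := (lst I E y).toFinset) (y := y) (B := B) (by omega)
    (fun x hx => (hS x hx).1.two_le) (fun x hx => by have := (hmem x).mp hx; omega) ?_ hSB (by rw [hprod]; exact hTB)
  · refine le_trans ?_ hg
    have hpos : ∀ x ∈ (lst I E y).toFinset, (0 : ℚ) < x := fun x hx => by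
      have := (hmem x).mp hx
      exact_mod_cast (by omega : 0 < x)
    have h1 : ∏ x ∈ (lst I E y).toFinset, (1 - (x : ℚ)⁻¹) =
        ((((lst I E y).map (fun x => x - 1)).prod : ℕ) : ℚ) / (((lst I E y).prod : ℕ) : ℚ) := by
      rw [← List.prod_toFinset (fun x => x - 1) hnd, ← hprod, Nat.cast_prod, Nat.cast_prod, ← Finset.prod_div_distrib]
      refine Finset.prod_congr rfl fun x hx => ?_
      have h3 := (hmem x).mp hx
      have := hpos x hx
      rw [Nat.cast_sub (by omega : 1 ≤ x)]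
      field_simp
      simp
    rw [h1]
    have hp0 : (0 : ℚ) < (((lst I E y).prod : ℕ) : ℚ) := by
      rw [← hprod, Nat.cast_prod]
      exact Finset.prod_pos hpos
    rw [div_le_div_iff₀ (by exact_mod_cast hden) hp0]
    have : ((num * (lst I E y).prod : ℕ) : ℚ) ≤ ((den * ((lst I E y).map (fun x => x - 1)).prod : ℕ) : ℚ) := by
      exact_mod_cast hval
    push_cast at this ⊢
    linarith
  · intro x hx hxy
    rw [hmem]
    have h2 := (hS x hx).1.two_le
    have h3 := (hS x hx).2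
    refine ⟨hxy, by omega, isP_of_prime (hS x hx).1, ?_⟩
    unfold adm
    rw [Bool.and_eq_true, Bool.not_eq_true', List.all_eq_true]
    constructor
    · rw [← Bool.not_eq_true, List.contains_iff_mem]
      exact fun h => hE x h hx
    · intro i hi
      rw [Bool.and_eq_true, bne_iff_ne, bne_iff_ne]
      exact ⟨hcyc i (hI i hi) x hx, hcyc x hx i (hI i hi)⟩

end Pool.Agent.Helper51.Phi
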