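import Pool.Agent.Helper51.Phi.Greedy

set_option autoImplicit false
set_option maxRecDepth 100000
open Nat

namespace Pool.Agent.Helper51.Phi

private lemma a0 : 10 ^ 300 ≤ (lst [3, 5, 17, 23] [] 2099).prod := by decide +kernel
private lemma b0 : 3696 * (lst [3, 5, 17, 23] [] 2099).prod ≤ 10000 * ((lst [3, 5, 17, 23] [] 2099).map (fun x => x - 1)).prod := by decide +kernel
private lemma a1 : 10 ^ 300 ≤ (lst [3, 5, 17] [23] 2027).prod := by decide +kernel
private lemma b1 : 3696 * (lst [3, 5, 17] [23] 2027).prod ≤ 10000 * ((lst [3, 5, 17] [23] 2027).map (fun x => x - 1)).prod := by decide +kernel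
private lemma a2 : 10 ^ 300 ≤ (lst [3, 5] [17] 1907).prod := by decide +kernel
private lemma b2 : 3696 * (lst [3, 5] [17] 1907).prod ≤ 10000 * ((lst [3, 5] [17] 1907).map (fun x => x - 1)).prod := by decide +kernel
private lemma a3 : 10 ^ 300 ≤ (lst [3] [5] 1409).prod := by decide +kernel
private lemma b3 : 3696 * (lst [3] [5] 1409).prod ≤ 10000 * ((lst [3] [5] 1409).map (fun x => x - 1)).prod := by decide +kernel
private lemma a4 : 10 ^ 300 ≤ (lst [5, 7, 13] [3] 1229).prod := by decide +kernel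
private lemma b4 : 3696 * (lst [5, 7, 13] [3] 1229).prod ≤ 10000 * ((lst [5, 7, 13] [3] 1229).map (fun x => x - 1)).prod := by decide +kernel
private lemma a5 : 10 ^ 300 ≤ (lst [5, 7] [3, 13] 1123).prod := by decide +kernel
private lemma b5 : 3696 * (lst [5, 7] [3, 13] 1123).prod ≤ 10000 * ((lst [5, 7] [3, 13] 1123).map (fun x => x - 1)).prod := by decide +kernel
private lemma a6 : 10 ^ 300 ≤ (lst [5] [3, 7] 953).prod := by decide +kernel
private lemma b6 : 3696 * (lst [5] [3, 7] 953).prod ≤ 10000 * ((lst [5] [3, 7] 953).map (fun x => x - 1)).prod := by decide +kernel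
private lemma a7 : 10 ^ 300 ≤ (lst [7, 11] [3, 5] 983).prod := by decide +kernel
private lemma b7 : 3696 * (lst [7, 11] [3, 5] 983).prod ≤ 10000 * ((lst [7, 11] [3, 5] 983).map (fun x => x - 1)).prod := by decide +kernel
private lemma a8 : 10 ^ 300 ≤ (lst [7] [3, 5, 11] 877).prod := by decide +kernel
private lemma b8 : 3696 * (lst [7] [3, 5, 11] 877).prod ≤ 10000 * ((lst [7] [3, 5, 11] 877).map (fun x => x - 1)).prod := by decide +kernel
private lemma a9 : 10 ^ 300 ≤ (lst [] [3, 5, 7] 733).prod := by decide +kernel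
private lemma b9 : 3696 * (lst [] [3, 5, 7] 733).prod ≤ 10000 * ((lst [] [3, 5, 7] 733).map (fun x => x - 1)).prod := by decide +kernel

/-- A finite set of odd primes, none of them `1` modulo another, with product below `10^300`. -/
lemma cyc_set {S : Finset ℕ} (hS : ∀ x ∈ S, x.Prime ∧ x ≠ 2) (hcyc : ∀ x ∈ S, ∀ z ∈ S, z % x ≠ 1)
    (hSB : ∏ x ∈ S, x < 10 ^ 300) : (3696 : ℚ) / 10000 ≤ ∏ x ∈ S, (1 - (x : ℚ)⁻¹) := by
  by_cases h3 : 3 ∈ S
  · by_cases h5 : 5 ∈ S
    · by_cases h17 : 17 ∈ S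
      · by_cases h23 : 23 ∈ S
        · exact_mod_cast leaf [3, 5, 17, 23] [] 2099 3696 10000 (by norm_num) (by norm_num) hS hcyc (by simp [h3, h5, h17, h23]) (by simp) hSB a0 b0
        · exact_mod_cast leaf [3, 5, 17] [23] 2027 3696 10000 (by norm_num) (by norm_num) hS hcyc (by simp [h3, h5, h17]) (by simp [h23]) hSB a1 b1
      · exact_mod_cast leaf [3, 5] [17] 1907 3696 10000 (by norm_num) (by norm_num) hS hcyc (by simp [h3, h5]) (by simp [h17]) hSB a2 b2
    · exact_mod_cast leaf [3] [5] 1409 3696 10000 (by norm_num) (by norm_num) hS hcyc (by simp [h3]) (by simp [h5]) hSB a3 b3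
  · by_cases h5 : 5 ∈ S
    · by_cases h7 : 7 ∈ S
      · by_cases h13 : 13 ∈ S
        · exact_mod_cast leaf [5, 7, 13] [3] 1229 3696 10000 (by norm_num) (by norm_num) hS hcyc (by simp [h5, h7, h13]) (by simp [h3]) hSB a4 b4
        · exact_mod_cast leaf [5, 7] [3, 13] 1123 3696 10000 (by norm_num) (by norm_num) hS hcyc (by simp [h5, h7]) (by simp [h3, h13]) hSB a5 b5
      · exact_mod_cast leaf [5] [3, 7] 953 3696 10000 (by norm_num) (by norm_num) hS hcyc (by simp [h5]) (by simp [h3, h7]) hSB a6 b6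
    · by_cases h7 : 7 ∈ S
      · by_cases h11 : 11 ∈ S
        · exact_mod_cast leaf [7, 11] [3, 5] 983 3696 10000 (by norm_num) (by norm_num) hS hcyc (by simp [h7, h11]) (by simp [h3, h5]) hSB a7 b7
        · exact_mod_cast leaf [7] [3, 5, 11] 877 3696 10000 (by norm_num) (by norm_num) hS hcyc (by simp [h7]) (by simp [h3, h5, h11]) hSB a8 b8
      · exact_mod_cast leaf [] [3, 5, 7] 733 3696 10000 (by norm_num) (by norm_num) hS hcyc (by simp) (by simp [h3, h5, h7]) hSB a9 b9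

/-- Trial list of all primes from `5` on. -/
lemma leaf5 {S : Finset ℕ} {B : ℕ} (y : ℕ) (num den : ℕ) (hden : 0 < den) (hy : 3 ≤ y)
    (hS : ∀ x ∈ S, x.Prime ∧ x ≠ 2 ∧ x ≠ 3)
    (hSB : ∏ x ∈ S, x < B) (hTB : B ≤ (lst [] [3] y).prod)
    (hval : num * (lst [] [3] y).prod ≤ den * ((lst [] [3] y).map (fun x => x - 1)).prod) :
    (num : ℚ) / den ≤ ∏ x ∈ S, (1 - (x : ℚ)⁻¹) := by
  classical
  have hnd : (lst [] [3] y).Nodup := List.Nodup.filter _ List.nodup_range
  have hmem : ∀ x, x ∈ (lst [] [3] y).toFinset ↔ x ≤ y ∧ 3 ≤ x ∧ isP x = true ∧ adm [] [3] x = true := by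
    intro x
    rw [List.mem_toFinset, lst, List.mem_filter, List.mem_range]
    simp only [Bool.and_eq_true, decide_eq_true_eq]
    constructor
    · rintro ⟨h1, ⟨h2, h3⟩, h4⟩
      exact ⟨by omega, h2, h3, h4⟩
    · rintro ⟨h1, h2, h3, h4⟩
      exact ⟨by omega, ⟨h2, h3⟩, h4⟩
  have hprod : ∏ x ∈ (lst [] [3] y).toFinset, x = (lst [] [3] y).prod := by
    rw [List.prod_toFinset (fun x => x) hnd]
    simp
  have hg := greedy (S := S) (T := (lst [] [3] y).toFinset) (y := y) (B := B) (by omega)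
    (fun x hx => (hS x hx).1.two_le) (fun x hx => by have := (hmem x).mp hx; omega) ?_ hSB (by rw [hprod]; exact hTB)
  · refine le_trans ?_ hg
    have hpos : ∀ x ∈ (lst [] [3] y).toFinset, (0 : ℚ) < x := fun x hx => by
      have := (hmem x).mp hx
      exact_mod_cast (by omega : 0 < x)
    have h1 : ∏ x ∈ (lst [] [3] y).toFinset, (1 - (x : ℚ)⁻¹) =
        ((((lst [] [3] y).map (fun x => x - 1)).prod : ℕ) : ℚ) / (((lst [] [3] y).prod : ℕ) : ℚ) := by
      rw [← List.prod_toFinset (fun x => x - 1) hnd, ← hprod, Nat.cast_prod, Nat.cast_prod, ← Finset.prod_div_distrib]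
      refine Finset.prod_congr rfl fun x hx => ?_
      have h3 := (hmem x).mp hx
      have := hpos x hx
      rw [Nat.cast_sub (by omega : 1 ≤ x)]
      field_simp
      simp
    rw [h1]
    have hp0 : (0 : ℚ) < (((lst [] [3] y).prod : ℕ) : ℚ) := by
      rw [← hprod, Nat.cast_prod]
      exact Finset.prod_pos hpos
    rw [div_le_div_iff₀ (by exact_mod_cast hden) hp0]
    have : ((num * (lst [] [3] y).prod : ℕ) : ℚ) ≤ ((den * ((lst [] [3] y).map (fun x => x - 1)).prod : ℕ) : ℚ) := by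
      exact_mod_cast hval
    push_cast at this ⊢
    linarith
  · intro x hx hxy
    rw [hmem]
    have h2 := (hS x hx).1.two_le
    have h3 := (hS x hx).2
    refine ⟨hxy, by omega, isP_of_prime (hS x hx).1, ?_⟩
    unfold adm
    simp
    omega

private lemma c0 : 10 ^ 300 ≤ (lst [] [3] 727).prod := by decide +kernel
private lemma c1 : 2541 * (lst [] [3] 727).prod ≤ 10000 * ((lst [] [3] 727).map (fun x => x - 1)).prod := by decide +kernel
private lemma d0 : 5005 ≤ (lst [] [3] 13).prod := by decide +kernel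
private lemma d1 : 5754 * (lst [] [3] 13).prod ≤ 10000 * ((lst [] [3] 13).map (fun x => x - 1)).prod := by decide +kernel

lemma six_set {S : Finset ℕ} (hS : ∀ x ∈ S, x.Prime ∧ x ≠ 2 ∧ x ≠ 3)
    (hSB : ∏ x ∈ S, x < 10 ^ 300) : (2541 : ℚ) / 10000 ≤ ∏ x ∈ S, (1 - (x : ℚ)⁻¹) := by
  exact_mod_cast leaf5 727 2541 10000 (by norm_num) (by norm_num) hS hSB c0 c1

lemma six_small {S : Finset ℕ} (hS : ∀ x ∈ S, x.Prime ∧ x ≠ 2 ∧ x ≠ 3)
    (hSB : ∏ x ∈ S, x < 5005) : (5754 : ℚ) / 10000 ≤ ∏ x ∈ S, (1 - (x : ℚ)⁻¹) := by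
  exact_mod_cast leaf5 13 5754 10000 (by norm_num) (by norm_num) hS hSB d0 d1

end Pool.Agent.Helper51.Phi
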